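import Pool.Agent.Lib.MP_a60258_s6.Iface

/-!
# Module KFA: the kernel part is non-negative
-/

open MvPolynomial Finset

namespace A602.S6.H03.KFA

/-! ### First matches as sums -/

lemma rec_nodup {β : Type} (cd : β → ℕ) (key : ℕ) (f : β → ℤ) : ∀ (l : List β), (l.map cd).Nodup →
    (List.rec (motive := fun _ => ℤ) 0 (fun b _ ih => cond (Nat.beq (cd b) key) (f b) ih) l : ℤ)
      = (l.map fun b => if cd b = key then f b else 0).sum
  | [], _ => rfl
  | b :: l, h => by
      rw [List.map_cons, List.nodup_cons] at h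
      have ih := rec_nodup cd key f l h.2
      rw [List.map_cons, List.sum_cons]
      by_cases hb : cd b = key
      · have e1 : Nat.beq (cd b) key = true := by rw [Nat.beq_eq]; exact hb
        have e2 : (l.map fun b => if cd b = key then f b else 0).sum = 0 := by
          refine List.sum_eq_zero fun z hz => ?_
          rw [List.mem_map] at hz
          obtain ⟨a, ha, rfl⟩ := hz
          rw [if_neg]
          intro hk
          exact h.1 (List.mem_map.mpr ⟨a, ha, by rw [hk, hb]⟩)
        show (cond (Nat.beq (cd b) key) (f b) _ : ℤ) = _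
        rw [e1, cond_true, if_pos hb, e2, add_zero]
      · have e1 : Nat.beq (cd b) key = false := by
          rw [Bool.eq_false_iff]
          intro h'
          exact hb ((Nat.beq_eq ▸ h' : cd b = key))
        show (cond (Nat.beq (cd b) key) (f b) _ : ℤ) = _
        rw [e1, cond_false, if_neg hb, zero_add]
        exact ih

lemma fB_sum (tab : List BL) (h : (tab.map fun b => b.key).Nodup) (key : ℕ) (f : BL → ℤ) :
    fB 0 tab key f = (tab.map fun b => if b.key = key then f b else 0).sum :=
  rec_nodup (fun b : BL => b.key) key f tab h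

lemma fS_sum (ss : List SE) (h : (ss.map fun b => b.code).Nodup) (key : ℕ) (f : SE → ℤ) :
    fS 0 ss key f = (ss.map fun b => if b.code = key then f b else 0).sum :=
  rec_nodup (fun b : SE => b.code) key f ss h

lemma fT_sum (ts : List TE) (h : (ts.map fun b => b.code).Nodup) (key : ℕ) (f : TE → ℤ) :
    fT 0 ts key f = (ts.map fun b => if b.code = key then f b else 0).sum :=
  rec_nodup (fun b : TE => b.code) key f ts h

/-! ### Linear operations -/

section
variable {α : Type} [Fintype α] [DecidableEq α]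

lemma Lf_congr {n : ℕ} {F G : (α → ℕ) → ℝ} (h : ∀ x, F x = G x) : Lf n F = Lf n G := by
  unfold Lf
  exact Finset.sum_congr rfl fun x _ => by rw [h x]

lemma Lf_add {n : ℕ} (F G : (α → ℕ) → ℝ) : Lf n (fun x => F x + G x) = Lf n F + Lf n G := by
  unfold Lf
  rw [← Finset.sum_add_distrib]
  exact Finset.sum_congr rfl fun x _ => by ring

lemma Lf_zero {n : ℕ} : Lf n (fun _ : α → ℕ => (0 : ℝ)) = 0 := by
  simp [Lf]

lemma Lf_list {n : ℕ} {β : Type} (F : β → (α → ℕ) → ℝ) : ∀ (l : List β),
    Lf n (fun x => (l.map fun b => F b x).sum) = (l.map fun b => Lf n (F b)).sum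
  | [] => by simpa using Lf_zero
  | b :: l => by
      simp only [List.map_cons, List.sum_cons]
      rw [Lf_add, Lf_list F l]

/-- change of variables -/
lemma Lf_equiv (ε : Equiv.Perm α) (n : ℕ) (F : (α → ℕ) → ℝ) :
    Lf n (fun y => F (y ∘ ε)) = Lf n F := by
  unfold Lf
  refine Finset.sum_nbij' (fun y => y ∘ ε) (fun y => y ∘ ε.symm) ?_ ?_ ?_ ?_ ?_
  · intro y hy
    rw [Finset.mem_piAntidiag] at hy ⊢
    refine ⟨?_, fun _ _ => Finset.mem_univ _⟩
    rw [← hy.1]
    exact Equiv.sum_comp ε y
  · intro y hy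
    rw [Finset.mem_piAntidiag] at hy ⊢
    refine ⟨?_, fun _ _ => Finset.mem_univ _⟩
    rw [← hy.1]
    exact Equiv.sum_comp ε.symm y
  · intro y _
    funext a
    simp
  · intro y _
    funext a
    simp
  · intro y _
    congr 1
    unfold ifac
    exact (Equiv.prod_comp ε fun a => ((y a).factorial : ℝ)⁻¹).symm

end

/-! ### Symmetry -/

/-- exchange of the halves -/
def sw : Equiv.Perm (Fin 6) where
  toFun := ![3, 4, 5, 0, 1, 2]
  invFun := ![3, 4, 5, 0, 1, 2]
  left_inv := by decide
  right_inv := by decide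

/-- transposition of the cells -/
def tr : Equiv.Perm (Fin 3 × Fin 3) := Equiv.prodComm _ _

lemma act_sw (m m' : Fin 3 → ℕ) (y : Fin 3 × Fin 3 → ℕ) :
    act sw (mk m m' y) = mk m' m (y ∘ tr) := by
  funext e
  unfold act
  have h1 : ∀ i : Fin 3, pr (sw (ends (.inl i)).1) (sw (ends (.inl i)).2) = .inr (.inl i) := by
    decide
  have h2 : ∀ i : Fin 3, pr (sw (ends (.inr (.inl i))).1) (sw (ends (.inr (.inl i))).2)
      = .inl i := by decide
  have h3 : ∀ c : Fin 3 × Fin 3, pr (sw (ends (.inr (.inr c))).1) (sw (ends (.inr (.inr c))).2)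
      = .inr (.inr (c.2, c.1)) := by decide
  rcases e with i | i | c
  · rw [h1]; rfl
  · rw [h2]; rfl
  · rw [h3]; rfl

/-- the kernel sum of two states -/
noncomputable def AA (S : Finset ℕ) (P : R) (d k : ℕ) (φ : ℕ → ℕ → (Fin 3 → ℕ) → ℤ) (c c' : ℕ) :
    ℝ :=
  ifac (stf c) * ifac (stf c') * Lf k fun y : Fin 3 × Fin 3 → ℕ =>
    (∑ b ∈ Finset.piAntidiag Finset.univ d, (∏ a, ((y a).choose (b a) : ℝ))
      * ∑ q ∈ Finset.range 300, (φ q c (rowS b) : ℝ) * (φ q c' (colS b) : ℝ))
        * Vx S P (mk (stf c) (stf c') y)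

lemma AA_symm (PVP : PvpStatement) (S : Finset ℕ) (P : R) (d k : ℕ)
    (φ : ℕ → ℕ → (Fin 3 → ℕ) → ℤ) (c c' : ℕ) : AA S P d k φ c c' = AA S P d k φ c' c := by
  unfold AA
  rw [mul_comm (ifac (stf c))]
  congr 1
  rw [← Lf_equiv tr k fun y : Fin 3 × Fin 3 → ℕ =>
    (∑ b ∈ Finset.piAntidiag Finset.univ d, (∏ a, ((y a).choose (b a) : ℝ))
      * ∑ q ∈ Finset.range 300, (φ q c' (rowS b) : ℝ) * (φ q c (colS b) : ℝ))
        * Vx S P (mk (stf c') (stf c) y)]
  refine Lf_congr fun y => ?_
  have hV : Vx S P (mk (stf c') (stf c) (y ∘ tr)) = Vx S P (mk (stf c) (stf c') y) := by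
    rw [← act_sw, PVP.2]
  rw [hV]
  congr 1
  refine Finset.sum_nbij' (fun b => b ∘ tr) (fun b => b ∘ tr.symm) ?_ ?_ ?_ ?_ ?_
  · intro b hb
    rw [Finset.mem_piAntidiag] at hb ⊢
    refine ⟨?_, fun _ _ => Finset.mem_univ _⟩
    rw [← hb.1]
    exact Equiv.sum_comp tr b
  · intro b hb
    rw [Finset.mem_piAntidiag] at hb ⊢
    refine ⟨?_, fun _ _ => Finset.mem_univ _⟩
    rw [← hb.1]
    exact Equiv.sum_comp tr.symm b
  · intro b _
    funext a
    simp
  · intro b _
    funext a
    simp
  · intro b _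
    have e1 : rowS (b ∘ tr) = colS b := rfl
    have e2 : colS (b ∘ tr) = rowS b := rfl
    rw [e1, e2]
    congr 1
    · exact (Equiv.prod_comp tr fun a => ((y a).choose (b a) : ℝ)).symm
    · exact Finset.sum_congr rfl fun q _ => mul_comm _ _

/-! ### The double sum -/

/-- sum over the pairs `s ≤ t`, doubled off the diagonal -/
lemma full_sum (A : ℕ → ℕ → ℝ) (hA : ∀ a b, A a b = A b a) : ∀ (ss : List SE),
    okTs ss = true → (ss.map fun s => s.code).Nodup →
    (ss.map fun se => (se.ts.map fun te => (if se.code = te.code then (1 : ℝ) else 2)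
        * A se.code te.code).sum).sum
      = (ss.map fun se => (ss.map fun te => A se.code te.code).sum).sum
  | [], _, _ => rfl
  | s :: ss, h, hn => by
      unfold okTs at h
      rw [Bool.and_eq_true, decide_eq_true_eq] at h
      obtain ⟨h1, h2⟩ := h
      rw [List.map_cons, List.nodup_cons] at hn
      have ih := full_sum A hA ss h2 hn.2
      have e1 : (s.ts.map fun te => (if s.code = te.code then (1 : ℝ) else 2)
          * A s.code te.code).sum
          = A s.code s.code + (ss.map fun te => 2 * A s.code te.code).sum := by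
        have e2 : (s.ts.map fun te => (if s.code = te.code then (1 : ℝ) else 2)
            * A s.code te.code)
            = (s.ts.map fun te => te.code).map fun c => (if s.code = c then (1 : ℝ) else 2)
              * A s.code c := by
          rw [List.map_map]; rfl
        rw [e2, h1, List.map_cons, List.map_cons, List.sum_cons, if_pos rfl, one_mul, List.map_map]
        congr 2
        refine List.map_congr_left fun t ht => ?_
        show (if s.code = t.code then (1 : ℝ) else 2) * A s.code t.code = _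
        rw [if_neg]
        intro hc
        exact hn.1 (List.mem_map.mpr ⟨t, ht, hc.symm⟩)
      rw [List.map_cons, List.sum_cons, e1, ih, List.map_cons, List.sum_cons, List.map_cons,
        List.sum_cons]
      have e3 : (ss.map fun se => ((s :: ss).map fun te => A se.code te.code).sum)
          = ss.map fun se => A s.code se.code + (ss.map fun te => A se.code te.code).sum := by
        refine List.map_congr_left fun t _ => ?_
        rw [List.map_cons, List.sum_cons, hA]
      rw [e3, List.sum_map_add, List.sum_map_mul_left]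
      ring

/-- the block sum is non-negative -/
lemma block_nonneg (SOS : SosStatement) (S : Finset ℕ) (P : R) (d e : ℕ)
    (φ : ℕ → ℕ → (Fin 3 → ℕ) → ℤ) (ss : List SE) :
    0 ≤ (ss.map fun se => (ss.map fun te => AA S P d (d + e) φ se.code te.code).sum).sum := by
  have h := SOS S P ss.length (fun i => stf (ss.get i).code) d e 300
    (fun q i α => (φ q (ss.get i).code α : ℝ))
  have h7 : ∀ g : SE → ℝ, (ss.map g).sum = ∑ i : Fin ss.length, g (ss.get i) := fun g => by
    rw [← List.sum_ofFn]
    congr 1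
    conv_lhs => rw [← List.ofFn_get ss]
    rw [List.map_ofFn]
    rfl
  rw [h7]
  have h8 : (∑ i : Fin ss.length, (ss.map fun te => AA S P d (d + e) φ (ss.get i).code te.code).sum)
      = ∑ i : Fin ss.length, ∑ j : Fin ss.length,
        AA S P d (d + e) φ (ss.get i).code (ss.get j).code :=
    Finset.sum_congr rfl fun i _ => h7 _
  rw [h8]
  refine h.trans (le_of_eq ?_)
  refine Finset.sum_congr rfl fun i _ => Finset.sum_congr rfl fun j _ => ?_
  unfold AA
  refine congrArg _ (Lf_congr fun y => congrArg (· * _) ?_)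
  refine Finset.sum_congr rfl fun b _ => congrArg _ ?_
  exact (Finset.sum_range fun q => (φ q (ss.get i).code (rowS b) : ℝ)
    * (φ q (ss.get j).code (colS b) : ℝ)).symm


/-! ### The states of a block -/

lemma mem_codes : ∀ (ss : List SE), okTs ss = true → ∀ se ∈ ss, ∀ te ∈ se.ts,
    ∃ u ∈ ss, u.code = te.code
  | [], _, se, hse, _, _ => by simp at hse
  | s :: ss, h, se, hse, te, hte => by
      unfold okTs at h
      rw [Bool.and_eq_true, decide_eq_true_eq] at h
      obtain ⟨h1, h2⟩ := h
      rcases List.mem_cons.mp hse with rfl | hse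
      · have h3 : te.code ∈ se.ts.map fun te => te.code := List.mem_map.mpr ⟨te, hte, rfl⟩
        rw [h1, List.mem_map] at h3
        exact h3
      · obtain ⟨u, hu, hc⟩ := mem_codes ss h2 se hse te hte
        exact ⟨u, List.mem_cons_of_mem _ hu, hc⟩

lemma ts_nodup : ∀ (ss : List SE), okTs ss = true → (ss.map fun s => s.code).Nodup →
    ∀ se ∈ ss, (se.ts.map fun te => te.code).Nodup
  | [], _, _, se, hse => by simp at hse
  | s :: ss, h, hn, se, hse => by
      unfold okTs at h
      rw [Bool.and_eq_true, decide_eq_true_eq] at h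
      obtain ⟨h1, h2⟩ := h
      rcases List.mem_cons.mp hse with rfl | hse
      · rw [h1]
        exact hn
      · rw [List.map_cons, List.nodup_cons] at hn
        exact ts_nodup ss h2 hn.2 se hse

/-- the properties of the codes of the states of a block -/
def Good (p : ℕ) (bl : BL) (c : ℕ) : Prop :=
  c1 c ≤ c0 c ∧ c2 c ≤ c1 c ∧ 1 ≤ c1 c ∧ c0 c + c1 c ≤ p ∧ bl.key = c0 c + c1 c + c2 c
    ∧ cm (c0 c) (c1 c) (c2 c) = c

lemma okS_good {p : ℕ} {bl : BL} {se : SE} (h : okS p bl se = true) : Good p bl se.code := by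
  unfold okS at h
  simp only [Bool.and_eq_true] at h
  obtain ⟨⟨⟨⟨⟨⟨h1, h2⟩, h3⟩, h4⟩, h5⟩, h6⟩, _⟩ := h
  exact ⟨Nat.le_of_ble_eq_true h1, Nat.le_of_ble_eq_true h2, Nat.le_of_ble_eq_true h3,
    Nat.le_of_ble_eq_true h4, Nat.eq_of_beq_eq_true h5, Nat.eq_of_beq_eq_true h6⟩

structure OkB (p : ℕ) (bl : BL) : Prop where
  lt : 2 * bl.key < 3 * p
  dle : bl.d ≤ legs p bl
  nd : (bl.ss.map fun s => s.code).Nodup
  ts : okTs bl.ss = true
  good : ∀ se ∈ bl.ss, Good p bl se.code

lemma okB_ok {p : ℕ} {bl : BL} (h : okB p bl = true) : OkB p bl := by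
  unfold okB at h
  simp only [Bool.and_eq_true, decide_eq_true_eq, List.all_eq_true] at h
  obtain ⟨⟨⟨⟨⟨h1, h2⟩, _⟩, h4⟩, h5⟩, h6⟩ := h
  exact ⟨h1, h2, h4, h5, fun se hse => okS_good (h6 se hse)⟩

lemma cm_eq (a b c : ℕ) : cm a b c = 16 * (16 * a + b) + c := rfl

lemma good_iff {p : ℕ} {bl : BL} {c : ℕ} (h : Good p bl c) (m : Fin 3 → ℕ) (h1 : m 1 < 16)
    (h2 : m 2 < 16) : c = cm (m 0) (m 1) (m 2) ↔ ∀ i, m i = stf c i := by
  obtain ⟨_, _, _, _, _, g⟩ := h
  rw [cm_eq] at g ⊢
  have e : (∀ i, m i = stf c i) ↔ m 0 = c0 c ∧ m 1 = c1 c ∧ m 2 = c2 c := by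
    constructor
    · intro h
      exact ⟨h 0, h 1, h 2⟩
    · rintro ⟨a, b, d⟩ i
      fin_cases i
      · exact a
      · exact b
      · exact d
  rw [e]
  unfold c0 c1 c2 at *
  constructor
  · intro h
    omega
  · rintro ⟨a, b, d⟩
    omega

/-- every multiplicity of a complete graph is at most `p` -/
lemma le_p {p : ℕ} {x : Pr → ℕ} (hx : Cmp p x) (e : Pr) : x e ≤ p := by
  have h1 := hx (ends e).1
  unfold deg at h1
  rw [← h1]
  have h2 := Finset.single_le_sum (f := fun e' => if (ends e).1 = (ends e').1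
    ∨ (ends e).1 = (ends e').2 then x e' else 0) (fun _ _ => Nat.zero_le _) (Finset.mem_univ e)
  simp only [true_or, if_true] at h2
  exact h2

/-- the conditions in `lkp` -/
def Cnd (p : ℕ) (x : Pr → ℕ) : Prop :=
  x (.inl 1) ≤ x (.inl 0) ∧ x (.inl 2) ≤ x (.inl 1) ∧ x (.inl 0) ≠ p
      ∧ ¬ (2 * x (.inl 0) = p ∧ 2 * x (.inl 2) = p)
      ∧ x (.inr (.inl 1)) ≤ x (.inr (.inl 0)) ∧ x (.inr (.inl 2)) ≤ x (.inr (.inl 1))

instance (p : ℕ) (x : Pr → ℕ) : Decidable (Cnd p x) := by unfold Cnd; infer_instance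

/-- the graph has the given left and right parts -/
def Par (a b : ℕ) (x : Pr → ℕ) : Prop :=
  (∀ i, x (.inl i) = stf a i) ∧ ∀ i, x (.inr (.inl i)) = stf b i

instance (a b : ℕ) (x : Pr → ℕ) : Decidable (Par a b x) := by unfold Par; infer_instance

lemma key_iff {p : ℕ} (hp : p ≤ 11) {bl : BL} (hb : OkB p bl) {se : SE} (hse : se ∈ bl.ss)
    {te : TE} (hte : te ∈ se.ts) {x : Pr → ℕ} (hx : Cmp p x) :
    (Cnd p x ∧ bl.key = x (.inl 0) + (x (.inl 1) + x (.inl 2))
      ∧ se.code = cm (x (.inl 0)) (x (.inl 1)) (x (.inl 2))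
      ∧ te.code = cm (x (.inr (.inl 0))) (x (.inr (.inl 1))) (x (.inr (.inl 2))))
    ↔ Par se.code te.code x := by
  have gs := hb.good se hse
  obtain ⟨u, hu, hc⟩ := mem_codes bl.ss hb.ts se hse te hte
  have gt := hb.good u hu
  rw [hc] at gt
  have i1 := good_iff gs (fun i => x (.inl i)) (by have := le_p hx (.inl 1); omega)
    (by have := le_p hx (.inl 2); omega)
  have i2 := good_iff gt (fun i => x (.inr (.inl i))) (by have := le_p hx (.inr (.inl 1)); omega)
    (by have := le_p hx (.inr (.inl 2)); omega)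
  constructor
  · rintro ⟨_, _, h3, h4⟩
    exact ⟨i1.mp h3, i2.mp h4⟩
  · intro h
    refine ⟨?_, ?_, i1.mpr h.1, i2.mpr h.2⟩
    · obtain ⟨a1, a2, a3, a4, a5, a6⟩ := gs
      obtain ⟨b1, b2, b3, b4, b5, b6⟩ := gt
      have l := hb.lt
      have e0 : x (.inl 0) = c0 se.code := h.1 0
      have e1 : x (.inl 1) = c1 se.code := h.1 1
      have e2 : x (.inl 2) = c2 se.code := h.1 2
      have f0 : x (.inr (.inl 0)) = c0 te.code := h.2 0
      have f1 : x (.inr (.inl 1)) = c1 te.code := h.2 1
      have f2 : x (.inr (.inl 2)) = c2 te.code := h.2 2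
      unfold Cnd
      rw [e0, e1, e2, f0, f1, f2]
      refine ⟨a1, a2, ?_, ?_, b1, b2⟩
      · omega
      · rintro ⟨h1, h2⟩
        omega
    · have e0 : x (.inl 0) = c0 se.code := h.1 0
      have e1 : x (.inl 1) = c1 se.code := h.1 1
      have e2 : x (.inl 2) = c2 se.code := h.1 2
      rw [e0, e1, e2, gs.2.2.2.2.1]
      omega

lemma if_sum {β : Type} (a : Prop) [Decidable a] (l : List β) (f : β → ℤ) :
    (if a then (l.map f).sum else 0) = (l.map fun b => if a then f b else 0).sum := by
  split_ifs <;> simp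

/-- the kernel part as a sum over the tables -/
lemma Kf_eq {p : ℕ} (hp : p ≤ 11) {tab : List BL} (hn : (tab.map fun b => b.key).Nodup)
    (hok : ∀ bl ∈ tab, OkB p bl) {x : Pr → ℕ} (hx : Cmp p x) :
    Kf p tab x = (tab.map fun bl => (bl.ss.map fun se => (se.ts.map fun te =>
      if Par se.code te.code x then trmK bl se te x else 0).sum).sum).sum := by
  have h0 : Kf p tab x = if Cnd p x then fB 0 tab (x (.inl 0) + (x (.inl 1) + x (.inl 2))) fun bl =>
      fS 0 bl.ss (cm (x (.inl 0)) (x (.inl 1)) (x (.inl 2))) fun se =>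
        fT 0 se.ts (cm (x (.inr (.inl 0))) (x (.inr (.inl 1))) (x (.inr (.inl 2)))) fun te =>
          trmK bl se te x else 0 := rfl
  rw [h0, fB_sum tab hn, if_sum]
  congr 1
  refine List.map_congr_left fun bl hbl => ?_
  have hb := hok bl hbl
  rw [fS_sum bl.ss hb.nd, if_sum, if_sum]
  congr 1
  refine List.map_congr_left fun se hse => ?_
  rw [fT_sum se.ts (ts_nodup bl.ss hb.ts hb.nd se hse), if_sum, if_sum, if_sum]
  congr 1
  refine List.map_congr_left fun te hte => ?_
  have hk := key_iff hp hb hse hte hx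
  by_cases hpar : Par se.code te.code x
  · obtain ⟨k1, k2, k3, k4⟩ := hk.mpr hpar
    rw [if_pos hpar, if_pos k1, if_pos k2, if_pos k3, if_pos k4]
  · rw [if_neg hpar]
    split_ifs with k1 k2 k3 k4
    · exact absurd (hk.mp ⟨k1, k2, k3, k4⟩) hpar
    all_goals rfl

lemma cast_sum {β : Type} (f : β → ℤ) : ∀ l : List β,
    (((l.map f).sum : ℤ) : ℝ) = (l.map fun b => (f b : ℝ)).sum
  | [] => by simp
  | b :: l => by
      rw [List.map_cons, List.sum_cons, Int.cast_add, cast_sum f l, List.map_cons, List.sum_cons]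

lemma sum_mul_right' {β : Type} (f : β → ℝ) (c : ℝ) (l : List β) :
    (l.map f).sum * c = (l.map fun b => f b * c).sum := (List.sum_map_mul_right ..).symm

theorem kfa (KID : KidStatement) (FIB : FibStatement) (SOS : SosStatement) (PVP : PvpStatement)
    (PVZ : PvzStatement) : KfaStatement := by
  intro S p P tab hp1 hp hP hn hok
  have hok' : ∀ bl ∈ tab, OkB p bl := fun bl hbl => okB_ok (hok bl hbl)
  -- the sum over the tables
  have h1 : (Lf (3 * p) fun x : Pr → ℕ => (Kf p tab x : ℝ) * Vx S P x)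
      = Lf (3 * p) fun x : Pr → ℕ => (tab.map fun bl => (bl.ss.map fun se => (se.ts.map fun te =>
        if Par se.code te.code x then (trmK bl se te x : ℝ) * Vx S P x else 0).sum).sum).sum := by
    refine Lf_congr fun x => ?_
    by_cases hx : Cmp p x
    · rw [Kf_eq hp hn hok' hx, cast_sum, sum_mul_right']
      congr 1
      refine List.map_congr_left fun bl _ => ?_
      rw [cast_sum, sum_mul_right']
      congr 1
      refine List.map_congr_left fun se _ => ?_
      rw [cast_sum, sum_mul_right']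
      congr 1
      refine List.map_congr_left fun te _ => ?_
      split_ifs
      · rfl
      · simp
    · have hV := PVZ S p P x hP hx
      rw [hV, mul_zero]
      symm
      refine List.sum_eq_zero fun z hz => ?_
      obtain ⟨bl, _, rfl⟩ := List.mem_map.mp hz
      refine List.sum_eq_zero fun z hz => ?_
      obtain ⟨se, _, rfl⟩ := List.mem_map.mp hz
      refine List.sum_eq_zero fun z hz => ?_
      obtain ⟨te, _, rfl⟩ := List.mem_map.mp hz
      simp
  rw [h1, Lf_list (fun (bl : BL) (x : Pr → ℕ) => (bl.ss.map fun se => (se.ts.map fun te =>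
        if Par se.code te.code x then (trmK bl se te x : ℝ) * Vx S P x else 0).sum).sum)]
  refine List.sum_nonneg fun z hz => ?_
  obtain ⟨bl, hbl, rfl⟩ := List.mem_map.mp hz
  have hb := hok' bl hbl
  obtain ⟨φ, hφ⟩ := KID p bl hp (hok bl hbl)
  obtain ⟨e, he⟩ : ∃ e, legs p bl = bl.d + e := ⟨legs p bl - bl.d, by have := hb.dle; omega⟩
  have h2 : (Lf (3 * p) fun x : Pr → ℕ => (bl.ss.map fun se => (se.ts.map fun te =>
        if Par se.code te.code x then (trmK bl se te x : ℝ) * Vx S P x else 0).sum).sum)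
      = (bl.ss.map fun se => (se.ts.map fun te => (if se.code = te.code then (1 : ℝ) else 2)
        * AA S P bl.d (bl.d + e) φ se.code te.code).sum).sum := by
    rw [Lf_list (fun (se : SE) (x : Pr → ℕ) => (se.ts.map fun te =>
        if Par se.code te.code x then (trmK bl se te x : ℝ) * Vx S P x else 0).sum)]
    congr 1
    refine List.map_congr_left fun se hse => ?_
    rw [Lf_list (fun (te : TE) (x : Pr → ℕ) =>
        if Par se.code te.code x then (trmK bl se te x : ℝ) * Vx S P x else 0)]
    congr 1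
    refine List.map_congr_left fun te hte => ?_
    have gs := hb.good se hse
    obtain ⟨u, hu, hc⟩ := mem_codes bl.ss hb.ts se hse te hte
    have gt := hb.good u hu
    rw [hc] at gt
    have s1 : ∑ i, stf se.code i = bl.key := by
      rw [Fin.sum_univ_three, gs.2.2.2.2.1]; rfl
    have s2 : ∑ i, stf te.code i = bl.key := by
      rw [Fin.sum_univ_three, gt.2.2.2.2.1]; rfl
    have s3 : ∑ i, stf se.code i + ∑ i, stf te.code i + (bl.d + e) = 3 * p := by
      rw [s1, s2, ← he]
      unfold legs
      have := hb.lt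
      omega
    have h3 := FIB (stf se.code) (stf te.code) (bl.d + e)
      (fun x => (trmK bl se te x : ℝ) * Vx S P x)
    rw [s3] at h3
    have h4 : (Lf (3 * p) fun x : Pr → ℕ =>
        if Par se.code te.code x then (trmK bl se te x : ℝ) * Vx S P x else 0) = _ := h3
    rw [h4]
    unfold AA
    rw [mul_left_comm]
    congr 1
    have h5 : ∀ (c : ℝ) (F : (Fin 3 × Fin 3 → ℕ) → ℝ) (n : ℕ),
        c * Lf n F = Lf n fun y => c * F y := fun c F n => by
      unfold Lf
      rw [Finset.mul_sum]
      exact Finset.sum_congr rfl fun x _ => by ring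
    rw [h5]
    refine Lf_congr fun y => ?_
    by_cases hy : Cmp p (mk (stf se.code) (stf te.code) y)
    · rw [hφ se hse te hte y hy]
      push_cast
      ring
    · rw [PVZ S p P _ hP hy]
      ring
  rw [h2, full_sum (AA S P bl.d (bl.d + e) φ) (AA_symm PVP S P bl.d (bl.d + e) φ) bl.ss hb.ts hb.nd]
  exact block_nonneg SOS S P bl.d e φ bl.ss

end A602.S6.H03.KFA

namespace A602.S6.H03

/-- **Module KFA.** -/
theorem kfa (KID : KidStatement) (FIB : FibStatement) (SOS : SosStatement) (PVP : PvpStatement)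
    (PVZ : PvzStatement) : KfaStatement := KFA.kfa KID FIB SOS PVP PVZ

end A602.S6.H03
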