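import Pool.Agent.Lib.MP_a60258_s6.Iface

/-!
# Module K6F: the sixth cumulant as a sum over graphs
-/

open MvPolynomial Finset

namespace A602.S6.H03

/-- expansion of a sum over the pairs -/
lemma sum_Pr {M : Type} [AddCommMonoid M] (f : Pr → M) :
    ∑ e, f e = (f (.inl 0) + f (.inl 1) + f (.inl 2))
      + ((f (.inr (.inl 0)) + f (.inr (.inl 1)) + f (.inr (.inl 2)))
        + ((f (.inr (.inr (0, 0))) + f (.inr (.inr (0, 1))) + f (.inr (.inr (0, 2))))
          + (f (.inr (.inr (1, 0))) + f (.inr (.inr (1, 1))) + f (.inr (.inr (1, 2))))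
          + (f (.inr (.inr (2, 0))) + f (.inr (.inr (2, 1))) + f (.inr (.inr (2, 2)))))) := by
  simp only [Fintype.sum_sum_type, Fintype.sum_prod_type, Fin.sum_univ_three]

lemma prod_Pr {M : Type} [CommMonoid M] (f : Pr → M) :
    ∏ e, f e = (f (.inl 0) * f (.inl 1) * f (.inl 2))
      * ((f (.inr (.inl 0)) * f (.inr (.inl 1)) * f (.inr (.inl 2)))
        * ((f (.inr (.inr (0, 0))) * f (.inr (.inr (0, 1))) * f (.inr (.inr (0, 2))))
          * (f (.inr (.inr (1, 0))) * f (.inr (.inr (1, 1))) * f (.inr (.inr (1, 2))))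
          * (f (.inr (.inr (2, 0))) * f (.inr (.inr (2, 1))) * f (.inr (.inr (2, 2)))))) := by
  simp only [Fintype.prod_sum_type, Fintype.prod_prod_type, Fin.prod_univ_three]

lemma one_le {p : ℕ} {x : Pr → ℕ} (hx : Cmp p x) (v : Fin 6) (e : Pr)
    (h : v = (ends e).1 ∨ v = (ends e).2) : x e ≤ p := by
  have h1 := hx v
  unfold deg at h1
  rw [← h1]
  have h2 := Finset.single_le_sum (f := fun e => if v = (ends e).1 ∨ v = (ends e).2 then x e else 0)
    (fun _ _ => Nat.zero_le _) (Finset.mem_univ e)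
  simp only [if_pos h] at h2
  exact h2

lemma two_le {p : ℕ} {x : Pr → ℕ} (hx : Cmp p x) (v : Fin 6) (e e' : Pr) (hne : e ≠ e')
    (h : v = (ends e).1 ∨ v = (ends e).2) (h' : v = (ends e').1 ∨ v = (ends e').2) :
    x e + x e' ≤ p := by
  have h1 := hx v
  unfold deg at h1
  rw [← h1]
  have h2 := Finset.sum_le_sum_of_subset (f := fun e => if v = (ends e).1 ∨ v = (ends e).2 then x e else 0)
    (Finset.subset_univ ({e, e'} : Finset Pr))
  rw [Finset.sum_pair hne] at h2
  simp only [if_pos h, if_pos h'] at h2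
  exact h2

lemma Lf_congr {n : ℕ} {F G : (Pr → ℕ) → ℝ} (h : ∀ x, F x = G x) : Lf n F = Lf n G := by
  unfold Lf
  exact Finset.sum_congr rfl fun x _ => by rw [h x]

lemma Lf_add {n : ℕ} (F G : (Pr → ℕ) → ℝ) : Lf n (fun x => F x + G x) = Lf n F + Lf n G := by
  unfold Lf
  rw [← Finset.sum_add_distrib]
  exact Finset.sum_congr rfl fun x _ => by ring

lemma Lf_smul {n : ℕ} (c : ℝ) (F : (Pr → ℕ) → ℝ) : Lf n (fun x => c * F x) = c * Lf n F := by
  unfold Lf
  rw [Finset.mul_sum]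
  exact Finset.sum_congr rfl fun x _ => by ring

/-- the general piece -/
lemma piece (SHF : ShfStatement) (EXA : ExaStatement) {S : Finset ℕ} {p : ℕ} {P : R}
    (hP : Cha S p P) (n : Pr → ℕ) (l : List (Fin 6 × Fin 6)) (hl : ms ends n = (l : Multiset _))
    (hn : ∑ e, n e ≤ 3 * p) :
    val S l (fun _ => P)
      = Lf (3 * p) fun y : Pr → ℕ => (∏ e, ((y e).descFactorial (n e) : ℝ)) * Vx S P y := by
  have h1 : val S l (fun _ => P) = val S (ms ends n).toList (fun _ => P) := by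
    apply val_perm
    rw [← Multiset.coe_eq_coe, Multiset.coe_toList, hl]
  rw [h1, EXA S p P n (3 * p - ∑ e, n e) hP (Nat.sub_add_cancel hn),
    SHF Pr n (3 * p - ∑ e, n e) (Vx S P), Nat.sub_add_cancel hn]

/-- only the complete graphs matter -/
lemma Lf_cmp (PVZ : PvzStatement) {S : Finset ℕ} {p : ℕ} {P : R} (hP : Cha S p P)
    {n : ℕ} {f g : (Pr → ℕ) → ℝ} (h : ∀ x, Cmp p x → f x = g x) :
    Lf n (fun x => f x * Vx S P x) = Lf n (fun x => g x * Vx S P x) := by
  refine Lf_congr fun x => ?_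
  by_cases hx : Cmp p x
  · rw [h x hx]
  · rw [PVZ S p P x hP hx, mul_zero, mul_zero]

/-- the three labelled graphs -/
def nA (p : ℕ) : Pr → ℕ := mk ![p, 0, 0] ![0, 0, 0] fun _ => 0
def nB (p : ℕ) : Pr → ℕ := mk ![p, 0, 0] ![0, 0, p] fun c => if c = (2, 0) then p else 0
def nC (q : ℕ) : Pr → ℕ := mk ![q, q, q] ![0, 0, 0] fun _ => 0

lemma ms_zero : ms ends (0 : Pr → ℕ) = (([] : List (Fin 6 × Fin 6)) : Multiset _) := by
  simp [ms]

lemma ms_nA (p : ℕ) : ms ends (nA p) = ((List.replicate p ((0 : Fin 6), (1 : Fin 6)) :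
    List (Fin 6 × Fin 6)) : Multiset _) := by
  unfold ms
  rw [sum_Pr]
  simp only [nA, mk, Sum.elim_inl, Sum.elim_inr, Matrix.cons_val_zero, Matrix.cons_val_one,
    Matrix.cons_val, zero_smul, add_zero]
  rw [Multiset.nsmul_singleton, Multiset.coe_replicate]
  rfl

lemma ms_nB (p : ℕ) : ms ends (nB p) = ((List.replicate p ((0 : Fin 6), (1 : Fin 6))
    ++ (List.replicate p (2, 3) ++ List.replicate p (4, 5)) :
    List (Fin 6 × Fin 6)) : Multiset _) := by
  unfold ms
  rw [sum_Pr]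
  simp only [nB, mk, Sum.elim_inl, Sum.elim_inr, Matrix.cons_val_zero, Matrix.cons_val_one,
    Matrix.cons_val, zero_smul, add_zero, zero_add,
    show ((0 : Fin 3), (0 : Fin 3)) ≠ (2, 0) by decide, show ((0 : Fin 3), (1 : Fin 3)) ≠ (2, 0) by decide,
    show ((0 : Fin 3), (2 : Fin 3)) ≠ (2, 0) by decide, show ((1 : Fin 3), (0 : Fin 3)) ≠ (2, 0) by decide,
    show ((1 : Fin 3), (1 : Fin 3)) ≠ (2, 0) by decide, show ((1 : Fin 3), (2 : Fin 3)) ≠ (2, 0) by decide,
    show ((2 : Fin 3), (1 : Fin 3)) ≠ (2, 0) by decide, show ((2 : Fin 3), (2 : Fin 3)) ≠ (2, 0) by decide,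
    if_true, if_false]
  rw [Multiset.nsmul_singleton, Multiset.nsmul_singleton, Multiset.nsmul_singleton,
    ← Multiset.coe_replicate, ← Multiset.coe_replicate, ← Multiset.coe_replicate,
    ← Multiset.coe_add, ← Multiset.coe_add]
  congr 1
  rw [add_comm]
  rfl

lemma ms_nC (q : ℕ) : ms ends (nC q) = ((List.replicate q ((0 : Fin 6), (1 : Fin 6))
    ++ (List.replicate q (0, 2) ++ List.replicate q (1, 2)) :
    List (Fin 6 × Fin 6)) : Multiset _) := by
  unfold ms
  rw [sum_Pr]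
  simp only [nC, mk, Sum.elim_inl, Sum.elim_inr, Matrix.cons_val_zero, Matrix.cons_val_one,
    Matrix.cons_val, zero_smul, add_zero]
  rw [Multiset.nsmul_singleton, Multiset.nsmul_singleton, Multiset.nsmul_singleton,
    ← Multiset.coe_replicate, ← Multiset.coe_replicate, ← Multiset.coe_replicate,
    ← Multiset.coe_add, ← Multiset.coe_add, add_assoc]
  rfl


lemma desc_le {y p : ℕ} (h : y ≤ p) :
    (y.descFactorial p : ℝ) = if y = p then (p.factorial : ℝ) else 0 := by
  split_ifs with h1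
  · rw [h1, Nat.descFactorial_self]
  · rw [Nat.descFactorial_eq_zero_iff_lt.mpr (by omega), Nat.cast_zero]

lemma prod_nA {p : ℕ} {x : Pr → ℕ} (hx : Cmp p x) :
    (∏ e, ((x e).descFactorial (nA p e) : ℝ))
      = (p.factorial : ℝ) * if x (.inl 0) = p then 1 else 0 := by
  rw [prod_Pr]
  simp only [nA, mk, Sum.elim_inl, Sum.elim_inr, Matrix.cons_val_zero, Matrix.cons_val_one,
    Matrix.cons_val, Nat.descFactorial_zero, Nat.cast_one, mul_one]
  rw [desc_le (one_le hx 0 (.inl 0) (by decide))]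
  split_ifs <;> ring

lemma prod_nB {p : ℕ} {x : Pr → ℕ} (hx : Cmp p x) :
    (∏ e, ((x e).descFactorial (nB p e) : ℝ))
      = (p.factorial : ℝ) ^ 3 * if x (.inl 0) = p ∧ x (.inr (.inr (2, 0))) = p
        ∧ x (.inr (.inl 2)) = p then 1 else 0 := by
  rw [prod_Pr]
  simp only [nB, mk, Sum.elim_inl, Sum.elim_inr, Matrix.cons_val_zero, Matrix.cons_val_one,
    Matrix.cons_val,
    show ((0 : Fin 3), (0 : Fin 3)) ≠ (2, 0) by decide, show ((0 : Fin 3), (1 : Fin 3)) ≠ (2, 0) by decide,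
    show ((0 : Fin 3), (2 : Fin 3)) ≠ (2, 0) by decide, show ((1 : Fin 3), (0 : Fin 3)) ≠ (2, 0) by decide,
    show ((1 : Fin 3), (1 : Fin 3)) ≠ (2, 0) by decide, show ((1 : Fin 3), (2 : Fin 3)) ≠ (2, 0) by decide,
    show ((2 : Fin 3), (1 : Fin 3)) ≠ (2, 0) by decide, show ((2 : Fin 3), (2 : Fin 3)) ≠ (2, 0) by decide,
    if_true, if_false, Nat.descFactorial_zero, Nat.cast_one, mul_one, one_mul]
  rw [desc_le (one_le hx 0 (.inl 0) (by decide)),
    desc_le (one_le hx 2 (.inr (.inr (2, 0))) (by decide)),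
    desc_le (one_le hx 4 (.inr (.inl 2)) (by decide))]
  have key : ∀ (a b c : Prop) [Decidable a] [Decidable b] [Decidable c] (f : ℝ),
      (if a then f else 0) * ((if c then f else 0) * (if b then f else 0))
        = f ^ 3 * if a ∧ b ∧ c then 1 else 0 := by
    intro a b c _ _ _ f
    by_cases h1 : a <;> by_cases h2 : b <;> by_cases h3 : c <;> simp [h1, h2, h3]
    ring
  exact key _ _ _ _

lemma prod_nC {q : ℕ} {x : Pr → ℕ} (hx : Cmp (2 * q) x) :
    (∏ e, ((x e).descFactorial (nC q e) : ℝ))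
      = (q.factorial : ℝ) ^ 3 * if 2 * x (.inl 0) = 2 * q ∧ 2 * x (.inl 1) = 2 * q
        ∧ 2 * x (.inl 2) = 2 * q then 1 else 0 := by
  rw [prod_Pr]
  simp only [nC, mk, Sum.elim_inl, Sum.elim_inr, Matrix.cons_val_zero, Matrix.cons_val_one,
    Matrix.cons_val, Nat.descFactorial_zero, Nat.cast_one, mul_one]
  have h1 := two_le hx 0 (.inl 0) (.inl 1) (by decide) (by decide) (by decide)
  have h2 := two_le hx 1 (.inl 0) (.inl 2) (by decide) (by decide) (by decide)
  have h3 := two_le hx 2 (.inl 1) (.inl 2) (by decide) (by decide) (by decide)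
  by_cases g1 : x (.inl 0) < q
  · rw [Nat.descFactorial_eq_zero_iff_lt.mpr g1, if_neg (fun h => by omega)]
    simp
  by_cases g2 : x (.inl 1) < q
  · rw [Nat.descFactorial_eq_zero_iff_lt.mpr g2, if_neg (fun h => by omega)]
    simp
  by_cases g3 : x (.inl 2) < q
  · rw [Nat.descFactorial_eq_zero_iff_lt.mpr g3, if_neg (fun h => by omega)]
    simp
  have e1 : x (.inl 0) = q := by omega
  have e2 : x (.inl 1) = q := by omega
  have e3 : x (.inl 2) = q := by omega
  rw [e1, e2, e3, Nat.descFactorial_self, if_pos ⟨rfl, rfl, rfl⟩]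
  ring

lemma cc_nat (a b c d e p : ℕ) (hp : 1 ≤ p) (h1 : a + b ≤ p) (h2 : a + c ≤ p) :
    (1 + if b ≤ a ∧ c ≤ b then (if a = p then -15 + (if d = p ∧ e = p then 30 else 0)
      else if 2 * a = p ∧ 2 * c = p then -10 else 0) else 0 : ℤ)
    = 1 + (-15) * (if a = p then 1 else 0)
      + (-10) * (if 2 * a = p ∧ 2 * b = p ∧ 2 * c = p then 1 else 0)
      + 30 * (if a = p ∧ d = p ∧ e = p then 1 else 0) := by
  split_ifs <;> first | rfl | (exfalso; omega)

lemma cc_eq {p : ℕ} {x : Pr → ℕ} (hp : 1 ≤ p) (hx : Cmp p x) :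
    (cc p x : ℝ) = 1 + (-15) * (if x (.inl 0) = p then 1 else 0)
      + (-10) * (if 2 * x (.inl 0) = p ∧ 2 * x (.inl 1) = p ∧ 2 * x (.inl 2) = p then 1 else 0)
      + 30 * (if x (.inl 0) = p ∧ x (.inr (.inr (2, 0))) = p ∧ x (.inr (.inl 2)) = p
          then 1 else 0) := by
  have h := cc_nat (x (.inl 0)) (x (.inl 1)) (x (.inl 2)) (x (.inr (.inr (2, 0))))
    (x (.inr (.inl 2))) p hp (two_le hx 0 (.inl 0) (.inl 1) (by decide) (by decide) (by decide))
    (two_le hx 1 (.inl 0) (.inl 2) (by decide) (by decide) (by decide))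
  have h' : cc p x = _ := h
  rw [h']
  push_cast
  rfl

theorem k6f (SHF : ShfStatement) (EXA : ExaStatement) (TRI : TriStatement)
    (PVZ : PvzStatement) : K6fStatement := by
  intro S p P hp hP
  have hf : (p.factorial : ℝ) ≠ 0 := by positivity
  -- the sixth moment
  have k0 : E (P ^ 6) = Lf (3 * p) fun x : Pr → ℕ => 1 * Vx S P x := by
    rw [← W_nil (S := S)]
    unfold W
    rw [piece SHF EXA hP 0 [] ms_zero (by simp)]
    refine Lf_congr fun x => ?_
    simp
  -- the product of the second and the fourth moments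
  have k1 : E (P ^ 2) * E (P ^ 4) = Lf (3 * p) fun x : Pr → ℕ =>
      (if x (.inl 0) = p then 1 else 0) * Vx S P x := by
    have h := W_two_four (S := S) hP
    unfold W at h
    rw [piece SHF EXA hP (nA p) _ (ms_nA p) (by rw [sum_Pr]; simp [nA, mk]; omega),
      Lf_cmp PVZ hP (fun x hx => prod_nA hx)] at h
    have h2 : (Lf (3 * p) fun x : Pr → ℕ =>
        (p.factorial : ℝ) * (if x (.inl 0) = p then 1 else 0) * Vx S P x)
        = (p.factorial : ℝ) * Lf (3 * p) fun x : Pr → ℕ =>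
          (if x (.inl 0) = p then 1 else 0) * Vx S P x := by
      rw [← Lf_smul]
      exact Lf_congr fun x => by ring
    rw [h2] at h
    exact (mul_left_cancel₀ hf h).symm
  have k2 : E (P ^ 2) ^ 3 = Lf (3 * p) fun x : Pr → ℕ =>
      (if x (.inl 0) = p ∧ x (.inr (.inr (2, 0))) = p ∧ x (.inr (.inl 2)) = p then 1 else 0)
        * Vx S P x := by
    have h := W_two_two_two (S := S) hP
    unfold W at h
    rw [piece SHF EXA hP (nB p) _ (ms_nB p) (by rw [sum_Pr]; simp [nB, mk]; omega),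
      Lf_cmp PVZ hP (fun x hx => prod_nB hx)] at h
    have h2 : (Lf (3 * p) fun x : Pr → ℕ =>
        (p.factorial : ℝ) ^ 3 * (if x (.inl 0) = p ∧ x (.inr (.inr (2, 0))) = p
          ∧ x (.inr (.inl 2)) = p then 1 else 0) * Vx S P x)
        = (p.factorial : ℝ) ^ 3 * Lf (3 * p) fun x : Pr → ℕ =>
          (if x (.inl 0) = p ∧ x (.inr (.inr (2, 0))) = p ∧ x (.inr (.inl 2)) = p then 1 else 0)
            * Vx S P x := by
      rw [← Lf_smul]
      exact Lf_congr fun x => by ring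
    rw [h2] at h
    exact (mul_left_cancel₀ (pow_ne_zero 3 hf) h).symm
  have k3 : E (P ^ 3) ^ 2 = Lf (3 * p) fun x : Pr → ℕ =>
      (if 2 * x (.inl 0) = p ∧ 2 * x (.inl 1) = p ∧ 2 * x (.inl 2) = p then 1 else 0)
        * Vx S P x := by
    rcases Nat.even_or_odd' p with ⟨q, hq | hq⟩
    · subst hq
      have hg : (q.factorial : ℝ) ≠ 0 := by positivity
      have h := TRI S q P hP
      rw [piece SHF EXA hP (nC q) _ (ms_nC q) (by rw [sum_Pr]; simp [nC, mk]; omega),
        Lf_cmp PVZ hP (fun x hx => prod_nC hx)] at h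
      have h2 : (Lf (3 * (2 * q)) fun x : Pr → ℕ =>
          (q.factorial : ℝ) ^ 3 * (if 2 * x (.inl 0) = 2 * q ∧ 2 * x (.inl 1) = 2 * q
            ∧ 2 * x (.inl 2) = 2 * q then 1 else 0) * Vx S P x)
          = (q.factorial : ℝ) ^ 3 * Lf (3 * (2 * q)) fun x : Pr → ℕ =>
            (if 2 * x (.inl 0) = 2 * q ∧ 2 * x (.inl 1) = 2 * q ∧ 2 * x (.inl 2) = 2 * q
              then 1 else 0) * Vx S P x := by
        rw [← Lf_smul]
        exact Lf_congr fun x => by ring
      rw [h2] at h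
      exact (mul_left_cancel₀ (pow_ne_zero 3 hg) h).symm
    · rw [E_cube_odd hP ⟨q, hq⟩]
      symm
      have : ∀ x : Pr → ℕ, (if 2 * x (.inl 0) = p ∧ 2 * x (.inl 1) = p ∧ 2 * x (.inl 2) = p
          then (1 : ℝ) else 0) * Vx S P x = 0 := fun x => by
        rw [if_neg (fun h => by omega), zero_mul]
      rw [Lf_congr this]
      simp [Lf]
  unfold k6
  rw [show (15 : ℝ) * E (P ^ 2) * E (P ^ 4) = 15 * (E (P ^ 2) * E (P ^ 4)) by ring, k0, k1, k2, k3]
  have key : (Lf (3 * p) fun x : Pr → ℕ => (cc p x : ℝ) * Vx S P x)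
      = Lf (3 * p) fun x : Pr → ℕ => (1 + (-15) * (if x (.inl 0) = p then 1 else 0)
      + (-10) * (if 2 * x (.inl 0) = p ∧ 2 * x (.inl 1) = p ∧ 2 * x (.inl 2) = p then 1 else 0)
      + 30 * (if x (.inl 0) = p ∧ x (.inr (.inr (2, 0))) = p ∧ x (.inr (.inl 2)) = p
          then 1 else 0)) * Vx S P x := Lf_cmp PVZ hP (fun x hx => cc_eq hp hx)
  rw [key]
  have key2 : (Lf (3 * p) fun x : Pr → ℕ => (1 + (-15) * (if x (.inl 0) = p then 1 else 0)
      + (-10) * (if 2 * x (.inl 0) = p ∧ 2 * x (.inl 1) = p ∧ 2 * x (.inl 2) = p then 1 else 0)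
      + 30 * (if x (.inl 0) = p ∧ x (.inr (.inr (2, 0))) = p ∧ x (.inr (.inl 2)) = p
          then 1 else 0)) * Vx S P x)
      = Lf (3 * p) fun x : Pr → ℕ => (1 * Vx S P x
        + (-15) * ((if x (.inl 0) = p then 1 else 0) * Vx S P x)
        + (-10) * ((if 2 * x (.inl 0) = p ∧ 2 * x (.inl 1) = p ∧ 2 * x (.inl 2) = p
            then 1 else 0) * Vx S P x)
        + 30 * ((if x (.inl 0) = p ∧ x (.inr (.inr (2, 0))) = p ∧ x (.inr (.inl 2)) = p
          then 1 else 0) * Vx S P x)) := Lf_congr fun x => by ring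
  rw [key2, Lf_add, Lf_add, Lf_add, Lf_smul (-15), Lf_smul (-10), Lf_smul 30]
  ring

end A602.S6.H03
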